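import Mathlib

/-!
# MP_45f08a : the lattice `U ⊕ U ⊕ M` and the transitivity of its isometries

`M` is an abelian group with an integral quadratic form `q` (an even lattice, possibly
degenerate), the intersection form of `M` is `polar q`, so that `x · x = 2 q x`.
The elements of `U ⊕ U ⊕ M` are `(a, b, c, d, m)`, `x · x = 2 (a b + c d + q m)`.
-/

namespace MP45f08a

/-- the group `U ⊕ U ⊕ M` -/
abbrev Lat (M : Type) := ℤ × ℤ × ℤ × ℤ × M

variable {M : Type} [AddCommGroup M]

/-- half of the square -/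
def Q (q : QuadraticForm ℤ M) (x : Lat M) : ℤ :=
  x.1 * x.2.1 + x.2.2.1 * x.2.2.2.1 + q x.2.2.2.2

/-- the intersection form of `U ⊕ U ⊕ M` -/
def B (q : QuadraticForm ℤ M) (x y : Lat M) : ℤ :=
  x.1 * y.2.1 + x.2.1 * y.1 + (x.2.2.1 * y.2.2.2.1 + x.2.2.2.1 * y.2.2.1) +
    QuadraticMap.polar q x.2.2.2.2 y.2.2.2.2

variable (q : QuadraticForm ℤ M)

theorem Q_add (x y : Lat M) : Q q (x + y) = Q q x + Q q y + B q x y := by
  simp only [Q, B, QuadraticMap.polar, Prod.fst_add, Prod.snd_add]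
  ring

theorem B_self (x : Lat M) : B q x x = 2 * Q q x := by
  have h := QuadraticMap.polar_self q x.2.2.2.2
  simp only [Q, B, h]
  ring

theorem B_comm (x y : Lat M) : B q x y = B q y x := by
  have h := QuadraticMap.polar_comm q x.2.2.2.2 y.2.2.2.2
  simp only [B, h]
  ring

theorem B_add_left (x y z : Lat M) : B q (x + y) z = B q x z + B q y z := by
  have h := QuadraticMap.polar_add_left q x.2.2.2.2 y.2.2.2.2 z.2.2.2.2
  simp only [B, Prod.fst_add, Prod.snd_add, h]
  ring

theorem B_smul_left (n : ℤ) (x z : Lat M) : B q (n • x) z = n * B q x z := by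
  have h := QuadraticMap.polar_smul_left q n x.2.2.2.2 z.2.2.2.2
  simp only [B, Prod.smul_fst, Prod.smul_snd, h, smul_eq_mul]
  ring

theorem B_add_right (x y z : Lat M) : B q z (x + y) = B q z x + B q z y := by
  rw [B_comm, B_add_left, B_comm q x, B_comm q y]

theorem B_smul_right (n : ℤ) (x z : Lat M) : B q z (n • x) = n * B q z x := by
  rw [B_comm, B_smul_left, B_comm q x]

/-- `T` is an isometry -/
def Iso (T : Lat M ≃+ Lat M) : Prop := ∀ x, Q q (T x) = Q q x

variable {q}

theorem Iso.B {T : Lat M ≃+ Lat M} (h : Iso q T) (x y : Lat M) : B q (T x) (T y) = B q x y := by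
  have h1 := Q_add q (T x) (T y)
  have h2 := Q_add q x y
  rw [← map_add, h, h, h] at h1
  linarith

theorem Iso.symm {T : Lat M ≃+ Lat M} (h : Iso q T) : Iso q T.symm := by
  intro x
  have := h (T.symm x)
  rw [AddEquiv.apply_symm_apply] at this
  exact this.symm

theorem Iso.trans {S T : Lat M ≃+ Lat M} (h : Iso q S) (h' : Iso q T) : Iso q (S.trans T) := by
  intro x
  rw [AddEquiv.trans_apply, h', h]

/-! ## The moves -/

/-- exchange of the two hyperbolic planes -/
def swapP : Lat M ≃+ Lat M where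
  toFun x := (x.2.2.1, x.2.2.2.1, x.1, x.2.1, x.2.2.2.2)
  invFun x := (x.2.2.1, x.2.2.2.1, x.1, x.2.1, x.2.2.2.2)
  left_inv _ := rfl
  right_inv _ := rfl
  map_add' _ _ := rfl

/-- exchange of the two coordinates of the first plane -/
def swapA : Lat M ≃+ Lat M where
  toFun x := (x.2.1, x.1, x.2.2.1, x.2.2.2.1, x.2.2.2.2)
  invFun x := (x.2.1, x.1, x.2.2.1, x.2.2.2.1, x.2.2.2.2)
  left_inv _ := rfl
  right_inv _ := rfl
  map_add' _ _ := rfl

/-- change of sign in the first plane -/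
def negA : Lat M ≃+ Lat M where
  toFun x := (-x.1, -x.2.1, x.2.2.1, x.2.2.2.1, x.2.2.2.2)
  invFun x := (-x.1, -x.2.1, x.2.2.1, x.2.2.2.1, x.2.2.2.2)
  left_inv x := by simp
  right_inv x := by simp
  map_add' x y := by
    ext <;> simp <;> ring

/-- `c` becomes `c + t a` -/
def addC (t : ℤ) : Lat M ≃+ Lat M where
  toFun x := (x.1, x.2.1 - t * x.2.2.2.1, x.2.2.1 + t * x.1, x.2.2.2.1, x.2.2.2.2)
  invFun x := (x.1, x.2.1 + t * x.2.2.2.1, x.2.2.1 - t * x.1, x.2.2.2.1, x.2.2.2.2)
  left_inv x := by simp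
  right_inv x := by simp
  map_add' x y := by
    ext <;> simp <;> ring

variable (q)

/-- the transvection: `c` becomes `c - m · y - q(y) d`, `m` becomes `m + d y` -/
def tv (y : M) : Lat M ≃+ Lat M where
  toFun x := (x.1, x.2.1, x.2.2.1 - QuadraticMap.polar q x.2.2.2.2 y - q y * x.2.2.2.1,
    x.2.2.2.1, x.2.2.2.2 + x.2.2.2.1 • y)
  invFun x := (x.1, x.2.1, x.2.2.1 + QuadraticMap.polar q x.2.2.2.2 y - q y * x.2.2.2.1,
    x.2.2.2.1, x.2.2.2.2 - x.2.2.2.1 • y)
  left_inv x := by
    ext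
    · rfl
    · rfl
    · simp only [QuadraticMap.polar_add_left, QuadraticMap.polar_smul_left,
        QuadraticMap.polar_self, smul_eq_mul]
      ring
    · rfl
    · simp
  right_inv x := by
    ext
    · rfl
    · rfl
    · simp only [sub_eq_add_neg, QuadraticMap.polar_add_left, QuadraticMap.polar_neg_left,
        QuadraticMap.polar_smul_left, QuadraticMap.polar_self, smul_eq_mul]
      ring
    · rfl
    · simp
  map_add' x y' := by
    ext
    · rfl
    · rfl
    · simp only [Prod.fst_add, Prod.snd_add, QuadraticMap.polar_add_left]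
      ring
    · rfl
    · simp only [Prod.snd_add, Prod.fst_add, add_smul]
      abel

theorem iso_swapP : Iso q (swapP (M := M)) := by
  intro x; simp only [swapP, Q, AddEquiv.coe_mk, Equiv.coe_fn_mk]; ring

theorem iso_swapA : Iso q (swapA (M := M)) := by
  intro x; simp only [swapA, Q, AddEquiv.coe_mk, Equiv.coe_fn_mk]; ring

theorem iso_negA : Iso q (negA (M := M)) := by
  intro x; simp only [negA, Q, AddEquiv.coe_mk, Equiv.coe_fn_mk]; ring

theorem iso_addC (t : ℤ) : Iso q (addC (M := M) t) := by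
  intro x; simp only [addC, Q, AddEquiv.coe_mk, Equiv.coe_fn_mk]; ring

theorem iso_tv (y : M) : Iso q (tv q y) := by
  intro x
  have h1 : q (x.2.2.2.2 + x.2.2.2.1 • y) = q x.2.2.2.2 + q (x.2.2.2.1 • y) +
      QuadraticMap.polar q x.2.2.2.2 (x.2.2.2.1 • y) := by
    simp only [QuadraticMap.polar]; ring
  simp only [tv, Q, AddEquiv.coe_mk, Equiv.coe_fn_mk, h1, QuadraticMap.polar_smul_right,
    QuadraticMap.map_smul, smul_eq_mul]
  ring

/-! ## Transitivity -/

/-- `x` can be moved to `y` -/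
def Rel (x y : Lat M) : Prop := ∃ T : Lat M ≃+ Lat M, Iso q T ∧ T x = y

variable {q}

theorem Rel.refl (x : Lat M) : Rel q x x := ⟨AddEquiv.refl _, fun _ => rfl, rfl⟩

theorem Rel.symm {x y : Lat M} (h : Rel q x y) : Rel q y x := by
  obtain ⟨T, h1, h2⟩ := h
  exact ⟨T.symm, h1.symm, by rw [← h2, AddEquiv.symm_apply_apply]⟩

theorem Rel.trans {x y z : Lat M} (h : Rel q x y) (h' : Rel q y z) : Rel q x z := by
  obtain ⟨T, h1, h2⟩ := h
  obtain ⟨S, h3, h4⟩ := h'
  exact ⟨T.trans S, h1.trans h3, by rw [AddEquiv.trans_apply, h2, h4]⟩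

theorem rel_swapP (a b c d : ℤ) (m : M) : Rel q (a, b, c, d, m) (c, d, a, b, m) :=
  ⟨swapP, iso_swapP q, rfl⟩

theorem rel_swapA (a b c d : ℤ) (m : M) : Rel q (a, b, c, d, m) (b, a, c, d, m) :=
  ⟨swapA, iso_swapA q, rfl⟩

theorem rel_negA (a b c d : ℤ) (m : M) : Rel q (a, b, c, d, m) (-a, -b, c, d, m) :=
  ⟨negA, iso_negA q, rfl⟩

theorem rel_addC (t a b c d : ℤ) (m : M) :
    Rel q (a, b, c, d, m) (a, b - t * d, c + t * a, d, m) :=
  ⟨addC t, iso_addC q t, rfl⟩

theorem rel_tv (y : M) (a b c d : ℤ) (m : M) :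
    Rel q (a, b, c, d, m) (a, b, c - QuadraticMap.polar q m y - q y * d, d, m + d • y) :=
  ⟨tv q y, iso_tv q y, rfl⟩

theorem rel_swapC (a b c d : ℤ) (m : M) : Rel q (a, b, c, d, m) (a, b, d, c, m) :=
  ((rel_swapP a b c d m).trans (rel_swapA c d a b m)).trans (rel_swapP d c a b m)

/-- `x` is primitive in the strong sense: it pairs to 1 with some vector -/
def Uni (q : QuadraticForm ℤ M) (x : Lat M) : Prop := ∃ y, B q x y = 1

theorem Rel.uni {x y : Lat M} (h : Rel q x y) (hx : Uni q x) : Uni q y := by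
  obtain ⟨T, h1, h2⟩ := h
  obtain ⟨z, hz⟩ := hx
  exact ⟨T z, by rw [← h2, h1.B, hz]⟩

/-- some equivalent vector has a nonzero first coordinate -/
theorem exists_ne {x : Lat M} (hx : Uni q x) : ∃ y, Rel q x y ∧ y.1 ≠ 0 := by
  obtain ⟨a, b, c, d, m⟩ := x
  by_cases ha : a = 0
  · by_cases hb : b = 0
    · by_cases hc : c = 0
      · by_cases hd : d = 0
        · subst ha hb hc hd
          obtain ⟨⟨a', b', c', d', m'⟩, h⟩ := hx
          simp only [B, zero_mul, zero_add] at h
          refine ⟨_, (rel_tv m' 0 0 0 0 m).trans (rel_swapP _ _ _ _ _), ?_⟩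
          simp only
          rw [h]
          norm_num
        · exact ⟨_, ((rel_swapP _ _ _ _ _).trans (rel_swapA _ _ _ _ _)), hd⟩
      · exact ⟨_, rel_swapP _ _ _ _ _, hc⟩
    · exact ⟨_, rel_swapA _ _ _ _ _, hb⟩
  · exact ⟨_, Rel.refl _, ha⟩

/-- the normal form -/
theorem normal {x : Lat M} (hx : Uni q x) : Rel q x (1, Q q x, 0, 0, 0) := by
  classical
  -- the least absolute value of a nonzero first coordinate of an equivalent vector
  have hex : ∃ n : ℕ, 0 < n ∧ ∃ y, Rel q x y ∧ y.1.natAbs = n := by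
    obtain ⟨y, h1, h2⟩ := exists_ne hx
    exact ⟨y.1.natAbs, Int.natAbs_pos.2 h2, y, h1, rfl⟩
  obtain ⟨hpos, ⟨a, b, c, d, m⟩, hxy, hn⟩ := Nat.find_spec hex
  simp only at hn
  have hmin : ∀ y, Rel q x y → y.1 ≠ 0 → a.natAbs ≤ y.1.natAbs := by
    intro y h1 h2
    rw [hn]
    exact Nat.find_min' hex ⟨Int.natAbs_pos.2 h2, y, h1, rfl⟩
  have ha : a ≠ 0 := by
    rw [← Int.natAbs_pos, hn]; exact hpos
  -- `a` divides the third coordinate of every equivalent vector with first coordinate `a`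
  have key : ∀ b c d m, Rel q x (a, b, c, d, m) → a ∣ c := by
    intro b c d m h
    by_contra hc
    have h1 := (h.trans (rel_addC (-(c / a)) a b c d m)).trans (rel_swapP _ _ _ _ _)
    have h2 : c + -(c / a) * a = c % a := by
      have := Int.emod_add_mul_ediv c a
      linarith
    rw [h2] at h1
    have h3 : c % a ≠ 0 := fun h => hc (Int.dvd_of_emod_eq_zero h)
    have h4 := hmin _ h1 h3
    have h5 : (c % a).natAbs < a.natAbs := by
      have e1 := Int.emod_nonneg c ha
      have e2 := Int.emod_lt_abs c ha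
      have e3 := Int.abs_eq_natAbs a
      omega
    simp only at h4
    omega
  -- make the second plane zero
  obtain ⟨t, ht⟩ := key b c d m hxy
  have h1 : Rel q x (a, b + t * d, 0, d, m) := by
    have := hxy.trans (rel_addC (-t) a b c d m)
    have e1 : b - -t * d = b + t * d := by ring
    have e2 : c + -t * a = 0 := by rw [ht]; ring
    rwa [e1, e2] at this
  have h2 := h1.trans (rel_swapC _ _ _ _ _)
  obtain ⟨t', ht'⟩ := key _ _ _ _ h2
  have h3 : Rel q x (a, b + t * d, 0, 0, m) := by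
    have := h2.trans (rel_addC (-t') _ _ _ _ _)
    have e1 : b + t * d - -t' * 0 = b + t * d := by ring
    have e2 : d + -t' * a = 0 := by rw [ht']; ring
    rwa [e1, e2] at this
  generalize b + t * d = b2 at h3
  -- `a` divides `b2`
  have d1 : a ∣ b2 := by
    have h4 := ((h3.trans (rel_swapA _ _ _ _ _)).trans (rel_addC 1 _ _ _ _ _)).trans
      (rel_swapA _ _ _ _ _)
    have h5 := key _ _ _ _ (by simpa using h4)
    exact h5
  have d2 : ∀ y, a ∣ QuadraticMap.polar q m y := by
    intro y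
    have h4 := h3.trans (rel_tv y _ _ _ _ _)
    have h5 := key _ _ _ _ h4
    simpa using h5
  have ha1 : a ∣ 1 := by
    obtain ⟨⟨a', b', c', d', m'⟩, h⟩ := h3.uni hx
    simp only [B, zero_mul, add_zero] at h
    rw [← h]
    exact dvd_add (dvd_add (dvd_mul_right _ _) (dvd_mul_of_dvd_left d1 _)) (d2 m')
  have h4 : ∃ b3, Rel q x (1, b3, 0, 0, m) := by
    rcases Int.isUnit_iff.1 (isUnit_of_dvd_one ha1) with e | e
    · rw [e] at h3
      exact ⟨_, h3⟩
    · rw [e] at h3
      have := h3.trans (rel_negA _ _ _ _ _)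
      rw [neg_neg] at this
      exact ⟨_, this⟩
  obtain ⟨b3, h5⟩ := h4
  have h6 := ((((h5.trans (rel_swapA _ _ _ _ _)).trans (rel_swapP _ _ _ _ _)).trans
    (rel_tv (-m) _ _ _ _ _)).trans (rel_swapP _ _ _ _ _)).trans (rel_swapA _ _ _ _ _)
  have e1 : m + (1 : ℤ) • -m = 0 := by simp
  rw [e1] at h6
  obtain ⟨T, hT, hTx⟩ := h6
  have h7 := hT x
  rw [hTx] at h7
  simp only [Q, one_mul, zero_mul, add_zero, map_zero] at h7
  refine ⟨T, hT, ?_⟩
  rw [hTx, h7]
  rfl

/-- transitivity: two vectors of the same square that pair to 1 with some vector -/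
theorem transitive {x y : Lat M} (hx : Uni q x) (hy : Uni q y) (h : Q q x = Q q y) :
    ∃ T : Lat M ≃+ Lat M, Iso q T ∧ T x = y := by
  have h1 := normal hx
  have h2 := normal hy
  rw [h] at h1
  exact h1.trans h2.symm

end MP45f08a
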